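import Pool.Agent.K4H11.DB.Even3

/-!
# Groups generated by three involutions from a three-branch coloured tree

Every group `G_φ` is primitive on the `3k + 1` vertices of the tree, `ρ_0 ρ_1 ρ_2` is a full cycle, and every `ρ_a`
has `k + 1` fixed points. For every `k ≥ 3` there is an explicit colouring, periodic with period four, for which
`G_φ` contains the alternating group.

For the proof of primitivity see `Pool/Agent/K4H11/DB/Tree.lean`. For the last part, the cycles of `ρ_1 ρ_2` are the
components of the tree without the edges of colour `0`; for the colourings `0,1,2,1,…` (`k` odd) and `0,1,0,2,…` (`k`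
even) exactly one of them has length three and the others have lengths `1, 2, 4, 5`, so a power of `ρ_1 ρ_2` is a
three-cycle (`Odd3.lean`, `Even3.lean` in the same folder), and a primitive group with a three-cycle contains the
alternating group (Jordan).
-/

set_option autoImplicit false

open Equiv MulAction Pool.Agent.K4H11.DB

namespace Pool.Agent.Results.MP_db1bc6_al.Primitive

/-- The colours of the edges of `P_0`: `0, 1, 2, 1, 0, 1, 2, 1, …` for odd `k`, `0, 1, 0, 2, 0, 1, 0, 2, …` for
even `k`. -/
def pattern (k : ℕ) (j : Fin k) : ZMod 3 :=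
  if k % 2 = 1 then (if (j : ℕ) % 4 = 0 then 0 else if (j : ℕ) % 4 = 2 then 2 else 1)
  else (if (j : ℕ) % 4 = 1 then 1 else if (j : ℕ) % 4 = 3 then 2 else 0)

theorem pattern_admissible (k : ℕ) : Admissible (pattern k) := by
  intro i j hij
  unfold pattern
  have h01 : (0 : ZMod 3) ≠ 1 := by decide
  have h02 : (0 : ZMod 3) ≠ 2 := by decide
  have h12 : (1 : ZMod 3) ≠ 2 := by decide
  rcases (by omega : (i : ℕ) % 4 = 0 ∨ (i : ℕ) % 4 = 1 ∨ (i : ℕ) % 4 = 2 ∨ (i : ℕ) % 4 = 3) with h | h | h | h
  · have h' : (j : ℕ) % 4 = 1 := by omega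
    by_cases hk : k % 2 = 1 <;> simp [h, h', hk, h01]
  · have h' : (j : ℕ) % 4 = 2 := by omega
    by_cases hk : k % 2 = 1 <;> simp [h, h', hk, h12]
  · have h' : (j : ℕ) % 4 = 3 := by omega
    by_cases hk : k % 2 = 1 <;> simp [h, h', hk, h12.symm, h02]
  · have h' : (j : ℕ) % 4 = 0 := by omega
    by_cases hk : k % 2 = 1 <;> simp [h, h', hk, h02.symm]

/-- (A) Every `G_φ` is primitive, contains the full cycle `ρ_0 ρ_1 ρ_2`, and each `ρ_a` has `k + 1` fixed points.
(B) For every `k ≥ 3` and the colouring `pattern k`, the group `G_φ` contains the alternating group. -/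
theorem result :
    (∀ k : ℕ, 1 ≤ k → ∀ c : Fin k → ZMod 3, Admissible c →
      (∃! ρ : ZMod 3 → Perm (V k), ∀ a, IsRho c a (ρ a)) ∧
      ∀ ρ : ZMod 3 → Perm (V k), (∀ a, IsRho c a (ρ a)) →
        IsPreprimitive (G ρ) (V k) ∧
        (ρ 0 * ρ 1 * ρ 2).IsCycle ∧ (ρ 0 * ρ 1 * ρ 2).support = Finset.univ ∧
        ∀ a, (Finset.univ.filter (fun v => ρ a v = v)).card = k + 1) ∧
    (∀ k : ℕ, 3 ≤ k → Admissible (pattern k) ∧
      ∀ ρ : ZMod 3 → Perm (V k), (∀ a, IsRho (pattern k) a (ρ a)) → alternatingGroup (V k) ≤ G ρ) := by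
  constructor
  · intro k hk c hc
    have huniq : ∀ ρ : ZMod 3 → Perm (V k), (∀ a, IsRho c a (ρ a)) → ρ = fun a => R c a k := by
      intro ρ hρ
      funext a
      exact isRho_unique (hρ a) (R_isRho hc a)
    refine ⟨⟨fun a => R c a k, fun a => R_isRho hc a, huniq⟩, ?_⟩
    intro ρ hρ
    refine ⟨preprim hk hρ, ?_⟩
    have hρR := huniq ρ hρ
    have hall : ∀ v : V k, S k k v := fun v t j _ => j.2
    obtain ⟨-, -, h3⟩ := cyc hc k le_rfl
    have hsame : ∀ v w, (ρ 0 * ρ 1 * ρ 2).SameCycle v w := by
      intro v w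
      rw [hρR]
      exact h3 v w (hall v) (hall w)
    have hcard : Fintype.card (V k) = 3 * k + 1 := by
      simp [ZMod.card]
    have hmove : ∀ v, (ρ 0 * ρ 1 * ρ 2) v ≠ v := by
      intro v hv
      obtain ⟨w, hw⟩ := Fintype.exists_ne_of_one_lt_card (by omega : 1 < Fintype.card (V k)) v
      exact hw ((hsame v w).eq_of_left hv).symm
    refine ⟨⟨none, hmove none, fun w _ => hsame _ w⟩, ?_, ?_⟩
    · ext v
      simp only [Perm.mem_support, Finset.mem_univ, iff_true]
      exact hmove v
    · intro a
      have h1 : (ρ a).support.card = 2 * k := by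
        rw [hρR]; exact card_support_R hc a k le_rfl
      have h2 : (Finset.univ.filter (fun v => ρ a v = v)).card + (ρ a).support.card = 3 * k + 1 := by
        rw [← hcard, ← Finset.card_univ]
        exact Finset.card_filter_add_card_filter_not (s := (Finset.univ : Finset (V k))) (fun v => ρ a v = v)
      omega
  · intro k hk
    refine ⟨pattern_admissible k, ?_⟩
    intro ρ hρ
    have hprim := preprim (by omega : 1 ≤ k) hρ
    have h3 : ∃ σ ∈ G ρ, σ.IsThreeCycle := by
      by_cases ho : k % 2 = 1
      · exact odd3 k hk ho (pattern k) (fun j => by simp only [pattern, ho, if_true]) ρ hρ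
      · exact even3 k (by omega) (by omega) (pattern k) (fun j => by simp only [pattern, ho, if_false]) ρ hρ
    obtain ⟨σ, hσ, h⟩ := h3
    exact Perm.alternatingGroup_le_of_isPreprimitive_of_isThreeCycle_mem hprim h hσ

end Pool.Agent.Results.MP_db1bc6_al.Primitive
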